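import Mathlib

/-! Weak and strong sign changes of finite real sequences, and the impossibility of `K`
(weak) alternations for the values of a nonzero polynomial of degree `< K`. -/

open Polynomial

namespace Pool.Agent.H87.Oka

/-- There are `c + 1` positions (increasing, `< K`) at which `y` alternates weakly in sign. -/
def Weak (K c : ℕ) (y : ℕ → ℝ) : Prop :=
  ∃ f : ℕ → ℕ, ∃ σ : ℝ, σ ≠ 0 ∧ (∀ l < c, f l < f (l + 1)) ∧ (∀ l ≤ c, f l < K) ∧
    ∀ l ≤ c, 0 ≤ σ * (-1) ^ l * y (f l)

/-- There are `c + 1` positions (increasing, `< K`) at which `y` alternates strictly in sign. -/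
def Strong (K c : ℕ) (y : ℕ → ℝ) : Prop :=
  ∃ f : ℕ → ℕ, ∃ σ : ℝ, σ ≠ 0 ∧ (∀ l < c, f l < f (l + 1)) ∧ (∀ l ≤ c, f l < K) ∧
    ∀ l ≤ c, 0 < σ * (-1) ^ l * y (f l)

theorem Strong.weak {K c : ℕ} {y : ℕ → ℝ} (h : Strong K c y) : Weak K c y := by
  obtain ⟨f, σ, h1, h2, h3, h4⟩ := h
  exact ⟨f, σ, h1, h2, h3, fun l hl => (h4 l hl).le⟩

theorem Strong.mono {K c d : ℕ} {y : ℕ → ℝ} (h : Strong K c y) (hd : d ≤ c) : Strong K d y := by
  obtain ⟨f, σ, h1, h2, h3, h4⟩ := h
  exact ⟨f, σ, h1, fun l hl => h2 l (by omega), fun l hl => h3 l (by omega),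
    fun l hl => h4 l (by omega)⟩

theorem Weak.mono {K c d : ℕ} {y : ℕ → ℝ} (h : Weak K c y) (hd : d ≤ c) : Weak K d y := by
  obtain ⟨f, σ, h1, h2, h3, h4⟩ := h
  exact ⟨f, σ, h1, fun l hl => h2 l (by omega), fun l hl => h3 l (by omega),
    fun l hl => h4 l (by omega)⟩

theorem inc_of_step {c : ℕ} {f : ℕ → ℕ} (h : ∀ l < c, f l < f (l + 1)) :
    ∀ l ≤ c, l ≤ f l := by
  intro l
  induction l with
  | zero => intro _; exact Nat.zero_le _
  | succ l ih =>
    intro hl
    have := ih (by omega)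
    have := h l (by omega)
    omega

theorem lt_of_step {α : Type*} [Preorder α] {c : ℕ} {f : ℕ → α} (h : ∀ l < c, f l < f (l + 1)) :
    ∀ i j, i < j → j ≤ c → f i < f j := by
  intro i j hij
  induction j with
  | zero => omega
  | succ j ih =>
    intro hj
    rcases Nat.lt_succ_iff_lt_or_eq.1 hij with h1 | h1
    · exact lt_trans (ih h1 (by omega)) (h j (by omega))
    · subst h1; exact h i (by omega)

theorem Strong.lt {K c : ℕ} {y : ℕ → ℝ} (h : Strong K c y) : c < K := by
  obtain ⟨f, σ, h1, h2, h3, h4⟩ := h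
  have := inc_of_step h2 c le_rfl
  have := h3 c le_rfl
  omega

theorem Strong.neZero {K c : ℕ} {y : ℕ → ℝ} (h : Strong K c y) : ∃ k < K, y k ≠ 0 := by
  obtain ⟨f, σ, h1, h2, h3, h4⟩ := h
  refine ⟨f 0, h3 0 (Nat.zero_le _), fun h => ?_⟩
  have := h4 0 (Nat.zero_le _)
  rw [h] at this
  simp at this

theorem strong_zero {K : ℕ} {y : ℕ → ℝ} {k : ℕ} (hk : k < K) (h : y k ≠ 0) : Strong K 0 y := by
  refine ⟨fun _ => k, y k, h, fun l hl => by omega, fun l _ => hk, fun l hl => ?_⟩
  have : l = 0 := by omega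
  subst this
  simp only [pow_zero, mul_one]
  exact mul_self_pos.2 h

/-- The values of a nonzero polynomial of degree `< K` at `K+1` increasing points do not alternate
weakly in sign. -/
theorem alt_false (K : ℕ) (R : ℝ[X]) (hR : R ≠ 0) (hd : R.degree < K) (a : ℕ → ℝ)
    (ha : ∀ l < K, a l < a (l + 1)) (ρ : ℝ) (hρ : ρ ≠ 0)
    (h : ∀ l ≤ K, 0 ≤ ρ * (-1) ^ l * R.eval (a l)) : False := by
  classical
  have hmono := lt_of_step ha
  have hinj : Set.InjOn a (Finset.range (K + 1) : Finset ℕ) := by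
    intro i hi j hj hij
    simp only [Finset.coe_range, Set.mem_Iio] at hi hj
    rcases lt_trichotomy i j with h1 | h1 | h1
    · exact absurd hij (ne_of_lt (hmono i j h1 (by omega)))
    · exact h1
    · exact absurd hij.symm (ne_of_lt (hmono j i h1 (by omega)))
  have hcard : (Finset.range (K + 1)).card = K + 1 := by simp
  have hc := Lagrange.coeff_eq_sum (P := R) hinj (by
    rw [hcard]
    exact lt_of_lt_of_le hd (by exact_mod_cast (Nat.le_succ K)))
  rw [hcard, Nat.add_sub_cancel, coeff_eq_zero_of_degree_lt hd] at hc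
  -- sign of the weights
  have hsign : ∀ i ≤ K, 0 < (-1 : ℝ) ^ (K - i) * ∏ j ∈ (Finset.range (K + 1)).erase i,
      (a i - a j) := by
    intro i hi
    have hsplit : (Finset.range (K + 1)).erase i = Finset.range i ∪ Finset.Ioc i K := by
      ext j
      simp only [Finset.mem_erase, Finset.mem_range, Finset.mem_union, Finset.mem_Ioc]
      omega
    have hdisj : Disjoint (Finset.range i) (Finset.Ioc i K) := by
      rw [Finset.disjoint_left]
      intro j hj hj'
      simp only [Finset.mem_range, Finset.mem_Ioc] at hj hj'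
      omega
    rw [hsplit, Finset.prod_union hdisj]
    have h1 : 0 < ∏ j ∈ Finset.range i, (a i - a j) := by
      apply Finset.prod_pos
      intro j hj
      simp only [Finset.mem_range] at hj
      exact sub_pos.2 (hmono j i hj hi)
    have h2 : (-1 : ℝ) ^ (K - i) * ∏ j ∈ Finset.Ioc i K, (a i - a j) =
        ∏ j ∈ Finset.Ioc i K, (a j - a i) := by
      have : (-1 : ℝ) ^ (K - i) = ∏ j ∈ Finset.Ioc i K, (-1 : ℝ) := by
        rw [Finset.prod_const, Nat.card_Ioc]
      rw [this, ← Finset.prod_mul_distrib]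
      apply Finset.prod_congr rfl
      intro j _
      ring
    have h3 : 0 < ∏ j ∈ Finset.Ioc i K, (a j - a i) := by
      apply Finset.prod_pos
      intro j hj
      simp only [Finset.mem_Ioc] at hj
      exact sub_pos.2 (hmono i j hj.1 hj.2)
    calc (0 : ℝ) < (∏ j ∈ Finset.range i, (a i - a j)) * ∏ j ∈ Finset.Ioc i K, (a j - a i) :=
          mul_pos h1 h3
      _ = _ := by rw [← h2]; ring
  -- all terms have the same sign
  have hterm : ∀ i ∈ Finset.range (K + 1), 0 ≤ ρ * (-1) ^ K *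
      (R.eval (a i) / ∏ j ∈ (Finset.range (K + 1)).erase i, (a i - a j)) := by
    intro i hi
    have hi' : i ≤ K := by simpa [Nat.lt_succ_iff] using hi
    have hs := hsign i hi'
    set W := ∏ j ∈ (Finset.range (K + 1)).erase i, (a i - a j)
    have hW : W ≠ 0 := by
      intro h0; rw [h0, mul_zero] at hs; exact lt_irrefl _ hs
    have e1 : ρ * (-1) ^ K * (R.eval (a i) / W) =
        (ρ * (-1) ^ i * R.eval (a i)) * ((-1) ^ (K - i) * W) / (W * W) := by
      have : (-1 : ℝ) ^ K = (-1) ^ i * (-1) ^ (K - i) := by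
        rw [← pow_add]; congr 1; omega
      rw [this]
      field_simp
    rw [e1]
    exact div_nonneg (mul_nonneg (h i hi') hs.le) (mul_self_nonneg _)
  have hsum : ∑ i ∈ Finset.range (K + 1), ρ * (-1) ^ K *
      (R.eval (a i) / ∏ j ∈ (Finset.range (K + 1)).erase i, (a i - a j)) = 0 := by
    rw [← Finset.mul_sum, ← hc, mul_zero]
  have hz := (Finset.sum_eq_zero_iff_of_nonneg hterm).1 hsum
  have hroot : ∀ i ∈ Finset.range (K + 1), R.eval (a i) = 0 := by
    intro i hi
    have hi' : i ≤ K := by simpa [Nat.lt_succ_iff] using hi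
    have h1 := hz i hi
    have hs := hsign i hi'
    set W := ∏ j ∈ (Finset.range (K + 1)).erase i, (a i - a j)
    have hW : W ≠ 0 := by
      intro h0; rw [h0, mul_zero] at hs; exact lt_irrefl _ hs
    rcases mul_eq_zero.1 h1 with h2 | h2
    · exact absurd h2 (mul_ne_zero hρ (pow_ne_zero _ (by norm_num)))
    · exact (div_eq_zero_iff.1 h2).resolve_right hW
  apply hR
  apply Polynomial.eq_zero_of_degree_lt_of_eval_finset_eq_zero ((Finset.range (K + 1)).image a)
  · rw [Finset.card_image_of_injOn hinj, hcard]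
    exact lt_of_lt_of_le hd (by exact_mod_cast (Nat.le_succ K))
  · intro x hx
    obtain ⟨i, hi, rfl⟩ := Finset.mem_image.1 hx
    exact hroot i hi

end Pool.Agent.H87.Oka
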