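import Pool.Agent.H87.Oka.Simple

open Polynomial Matrix

namespace Pool.Agent.H87.Oka

/-- the polynomial with coefficient vector `v` in the falling factorial basis -/
noncomputable def pol {N : ℕ} (v : Fin N → ℝ) : ℝ[X] :=
  ∑ j : Fin N, Polynomial.C (v j) * descPochhammer ℝ (j : ℕ)

theorem pol_eval {N : ℕ} (v : Fin N → ℝ) (t : ℝ) :
    (pol v).eval t = ∑ j : Fin N, v j * (descPochhammer ℝ (j : ℕ)).eval t := by
  simp [pol, eval_finsetSum]

theorem pol_degree {N : ℕ} (v : Fin N → ℝ) : (pol v).degree < N := by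
  rw [← Polynomial.mem_degreeLT]
  apply Submodule.sum_mem
  intro j _
  rw [Polynomial.mem_degreeLT]
  rw [← Polynomial.smul_eq_C_mul]
  apply lt_of_le_of_lt (degree_smul_le _ _)
  rw [degree_eq_natDegree (monic_descPochhammer ℝ (j : ℕ)).ne_zero, descPochhammer_natDegree]
  exact_mod_cast j.2

/-- evaluation matrix at the points `3 i + c` -/
noncomputable def E (N c : ℕ) : Matrix (Fin N) (Fin N) ℝ :=
  Matrix.of fun i j => (descPochhammer ℝ (j : ℕ)).eval ((3 * (i : ℕ) + c : ℕ) : ℝ)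

/-- weighted evaluation matrix at the points `3 i + c - m` -/
noncomputable def F (N c m : ℕ) : Matrix (Fin N) (Fin N) ℝ :=
  Matrix.of fun i j => ((3 * (i : ℕ) + c).descFactorial m : ℝ) *
    (descPochhammer ℝ (j : ℕ)).eval ((3 * (i : ℕ) + c - m : ℕ) : ℝ)

theorem E_det (N c : ℕ) : (E N c).det ≠ 0 := by
  unfold E
  rw [← Matrix.det_eval_matrixOfPolynomials_eq_det_vandermonde
    (fun i : Fin N => ((3 * (i : ℕ) + c : ℕ) : ℝ)) (fun j : Fin N => descPochhammer ℝ (j : ℕ))
    (fun i => by simp [descPochhammer_natDegree]) (fun i => monic_descPochhammer _ _)]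
  rw [Matrix.det_vandermonde_ne_zero_iff]
  intro i j hij
  simp only at hij
  have : 3 * (i : ℕ) + c = 3 * (j : ℕ) + c := by exact_mod_cast hij
  ext
  omega

/-- the matrix whose spectrum gives the roots -/
noncomputable def CC (N c m : ℕ) : Matrix (Fin N) (Fin N) ℝ := -((E N c)⁻¹ * F N c m)

theorem E_mul_CC (N c m : ℕ) : E N c * CC N c m = -F N c m := by
  unfold CC
  rw [Matrix.mul_neg, ← Matrix.mul_assoc, Matrix.mul_nonsing_inv _ (E_det N c).isUnit,
    Matrix.one_mul]

theorem E_mulVec {N c : ℕ} (v : Fin N → ℝ) (i : Fin N) :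
    (E N c).mulVec v i = (pol v).eval ((3 * (i : ℕ) + c : ℕ) : ℝ) := by
  rw [pol_eval]
  simp only [Matrix.mulVec, dotProduct, E, Matrix.of_apply]
  exact Finset.sum_congr rfl fun j _ => mul_comm _ _

theorem F_mulVec {N c m : ℕ} (v : Fin N → ℝ) (i : Fin N) :
    (F N c m).mulVec v i = ((3 * (i : ℕ) + c).descFactorial m : ℝ) *
      (pol v).eval ((3 * (i : ℕ) + c - m : ℕ) : ℝ) := by
  rw [pol_eval, Finset.mul_sum]
  simp only [Matrix.mulVec, dotProduct, F, Matrix.of_apply]
  exact Finset.sum_congr rfl fun j _ => by ring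

theorem pol_CC {N c m : ℕ} (v : Fin N → ℝ) (i : Fin N) :
    (pol ((CC N c m).mulVec v)).eval ((3 * (i : ℕ) + c : ℕ) : ℝ) =
      -(((3 * (i : ℕ) + c).descFactorial m : ℝ) *
        (pol v).eval ((3 * (i : ℕ) + c - m : ℕ) : ℝ)) := by
  rw [← E_mulVec, Matrix.mulVec_mulVec, E_mul_CC, Matrix.neg_mulVec, Pi.neg_apply, F_mulVec]

theorem eq_zero_of_pol {N c : ℕ} (v : Fin N → ℝ)
    (h : ∀ i : Fin N, (pol v).eval ((3 * (i : ℕ) + c : ℕ) : ℝ) = 0) : v = 0 := by
  have h1 : (E N c).mulVec v = 0 := by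
    ext i; rw [E_mulVec]; exact h i
  exact Matrix.eq_zero_of_mulVec_eq_zero (E_det N c) h1

/-- coordinates -/
noncomputable def YY (N c L : ℕ) : (Fin N → ℝ) →ₗ[ℝ] (ℕ → ℝ) where
  toFun v k := (pol v).eval ((3 * (L + k) + c : ℕ) : ℝ)
  map_add' v w := by
    ext k
    simp only [pol_eval, Pi.add_apply, add_mul, Finset.sum_add_distrib]
  map_smul' a v := by
    ext k
    simp only [pol_eval, Pi.smul_apply, smul_eq_mul, RingHom.id_apply, Finset.mul_sum, mul_assoc]

theorem YY_apply (N c L : ℕ) (v : Fin N → ℝ) (k : ℕ) :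
    YY N c L v k = (pol v).eval ((3 * (L + k) + c : ℕ) : ℝ) := rfl

/-- the subspace -/
noncomputable def VV (N c L : ℕ) : Submodule ℝ (Fin N → ℝ) where
  carrier := {v | ∀ i : Fin N, (i : ℕ) < L → (pol v).eval ((3 * (i : ℕ) + c : ℕ) : ℝ) = 0}
  add_mem' := by
    intro v w hv hw i hi
    have h1 := hv i hi
    have h2 := hw i hi
    simp only [pol_eval, Pi.add_apply, add_mul, Finset.sum_add_distrib] at h1 h2 ⊢
    rw [h1, h2, add_zero]
  zero_mem' := by
    intro i _
    simp [pol_eval]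
  smul_mem' := by
    intro a v hv i hi
    have h1 := hv i hi
    simp only [pol_eval, Pi.smul_apply, smul_eq_mul, mul_assoc, ← Finset.mul_sum] at h1 ⊢
    rw [h1, mul_zero]

/-- the sign products -/
noncomputable def PP (m L k : ℕ) : ℝ := ∏ i ∈ Finset.range L, (3 * ((L : ℝ) + k - i) - m)

theorem PP_step (m L k : ℕ) :
    PP m L (k + 1) * (3 * ((k : ℝ) + 1) - m) = PP m L k * (3 * ((L : ℝ) + k + 1) - m) := by
  have h1 := Finset.prod_range_succ (fun i : ℕ => (3 * ((L : ℝ) + ((k + 1 : ℕ) : ℝ) - (i : ℝ)) - m)) L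
  have h2 := Finset.prod_range_succ' (fun i : ℕ => (3 * ((L : ℝ) + ((k + 1 : ℕ) : ℝ) - (i : ℝ)) - m)) L
  rw [h1] at h2
  unfold PP
  have e1 : (3 * ((L : ℝ) + ((k + 1 : ℕ) : ℝ) - (L : ℝ)) - m) = (3 * ((k : ℝ) + 1) - m) := by
    push_cast; ring
  have e2 : (3 * ((L : ℝ) + ((k + 1 : ℕ) : ℝ) - ((0 : ℕ) : ℝ)) - m) = (3 * ((L : ℝ) + k + 1) - m) := by
    push_cast; ring
  rw [e1, e2] at h2
  rw [h2]
  congr 1
  apply Finset.prod_congr rfl
  intro i _
  push_cast
  ring

theorem PP_zero_ne {m L : ℕ} (hm : ¬ 3 ∣ m) : PP m L 0 ≠ 0 := by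
  unfold PP
  rw [Finset.prod_ne_zero_iff]
  intro i hi h0
  have hiL : i < L := Finset.mem_range.1 hi
  have h1 : (3 * (L : ℝ) - 3 * i) = m := by
    push_cast at h0; linarith
  have h2 : 3 * L = m + 3 * i := by
    have : (3 * (L : ℝ)) = m + 3 * i := by linarith
    exact_mod_cast this
  apply hm
  omega

theorem PP_sign {m L c N : ℕ} (hm : ¬ 3 ∣ m) (hc : c ≤ 2) (hL : ∀ i, i < L ↔ 3 * i + c < m)
    (hN : 3 * N + c < 2 * m + 3) : ∀ k, L + k < N → 0 < PP m L 0 * ((-1) ^ k * PP m L k) := by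
  intro k
  induction k with
  | zero =>
    intro _
    have := PP_zero_ne (L := L) hm
    simp only [pow_zero, one_mul]
    exact mul_self_pos.2 this
  | succ k ih =>
    intro hk
    have h1 := ih (by omega)
    have hLm : m ≤ 3 * L + c := by
      have := (hL L).not.1 (lt_irrefl _)
      omega
    have h2 : (3 * ((k : ℝ) + 1) - m) < 0 := by
      have : 3 * (k + 1) < m := by omega
      have : (3 * ((k : ℝ) + 1)) < m := by exact_mod_cast this
      linarith
    have h3 : 0 < (3 * ((L : ℝ) + k + 1) - m) := by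
      have : m < 3 * (L + k + 1) := by omega
      have : (m : ℝ) < 3 * ((L : ℝ) + k + 1) := by exact_mod_cast this
      linarith
    have h4 := PP_step m L k
    have h5 : 0 < (PP m L 0 * ((-1) ^ k * PP m L k)) * (3 * ((L : ℝ) + k + 1) - m) :=
      mul_pos h1 h3
    have e : (PP m L 0 * ((-1) ^ k * PP m L k)) * (3 * ((L : ℝ) + k + 1) - m) =
        (PP m L 0 * ((-1) ^ (k + 1) * PP m L (k + 1))) * (-(3 * ((k : ℝ) + 1) - m)) := by
      rw [pow_succ]
      calc _ = PP m L 0 * (-1) ^ k * (PP m L k * (3 * ((L : ℝ) + k + 1) - m)) := by ring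
        _ = PP m L 0 * (-1) ^ k * (PP m L (k + 1) * (3 * ((k : ℝ) + 1) - m)) := by rw [h4]
        _ = _ := by ring
    rw [e] at h5
    exact (mul_pos_iff_of_pos_right (by linarith)).1 h5

theorem osc {N c m L : ℕ} (hm : ¬ 3 ∣ m) (hc : c ≤ 2) (hL : ∀ i, i < L ↔ 3 * i + c < m)
    (hN : 3 * N + c < 2 * m + 3) : Osc N (N - L) (CC N c m) (YY N c L) (VV N c L) := by
  classical
  have hLm : m ≤ 3 * L + c := by
    have := (hL L).not.1 (lt_irrefl _)
    omega
  have key : ∀ v ∈ VV N c L, v ≠ 0 → L < N ∧ ∃ R : ℝ[X], R ≠ 0 ∧ R.degree < ((N - L : ℕ) : WithBot ℕ) ∧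
      pol v = R * ∏ i ∈ Finset.range L, (X - Polynomial.C ((3 * i + c : ℕ) : ℝ)) := by
    intro v hv hv0
    have hLN : L < N := by
      by_contra hcon
      apply hv0
      apply eq_zero_of_pol (c := c)
      intro i
      exact hv i (by omega)
    refine ⟨hLN, ?_⟩
    have hdvd : (∏ i ∈ Finset.range L, (X - Polynomial.C ((3 * i + c : ℕ) : ℝ))) ∣ pol v := by
      apply Finset.prod_dvd_of_coprime
      · intro i hi j hj hij
        apply Polynomial.isCoprime_X_sub_C_of_isUnit_sub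
        rw [isUnit_iff_ne_zero, sub_ne_zero]
        intro h0
        have : 3 * i + c = 3 * j + c := by exact_mod_cast h0
        exact hij (by omega)
      · intro i hi
        rw [dvd_iff_isRoot]
        have hiL : i < L := Finset.mem_range.1 hi
        exact hv ⟨i, by omega⟩ hiL
    obtain ⟨R, hR⟩ := hdvd
    have hpv : pol v ≠ 0 := by
      intro h0
      apply hv0
      apply eq_zero_of_pol (c := c)
      intro i
      rw [h0, eval_zero]
    have hR0 : R ≠ 0 := by
      intro h0; rw [h0, mul_zero] at hR; exact hpv hR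
    refine ⟨R, hR0, ?_, by rw [hR, mul_comm]⟩
    have hdeg := pol_degree v
    have hprod : (∏ i ∈ Finset.range L, (X - Polynomial.C ((3 * i + c : ℕ) : ℝ))).natDegree = L := by
      rw [natDegree_prod _ _ (fun i _ => X_sub_C_ne_zero _),
        Finset.sum_congr rfl (fun i _ => natDegree_X_sub_C _)]
      simp
    have hprod0 : (∏ i ∈ Finset.range L, (X - Polynomial.C ((3 * i + c : ℕ) : ℝ))) ≠ 0 :=
      Finset.prod_ne_zero_iff.2 fun i _ => X_sub_C_ne_zero _
    have h1 : (pol v).natDegree = L + R.natDegree := by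
      rw [hR, natDegree_mul hprod0 hR0, hprod]
    rw [degree_eq_natDegree hpv, h1] at hdeg
    rw [degree_eq_natDegree hR0]
    have : L + R.natDegree < N := by exact_mod_cast hdeg
    exact_mod_cast (by omega : R.natDegree < N - L)
  refine ⟨?_, ?_, ?_⟩
  · intro v i hi
    show (pol _).eval _ = 0
    rw [pol_CC, Nat.descFactorial_of_lt ((hL i).1 hi)]
    simp
  · intro v hv hv0
    obtain ⟨hLN, _⟩ := key v hv hv0
    by_contra hcon
    push Not at hcon
    apply hv0
    apply eq_zero_of_pol (c := c)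
    intro i
    by_cases hi : (i : ℕ) < L
    · exact hv i hi
    · have := hcon ((i : ℕ) - L) (by omega)
      rw [YY_apply] at this
      have e : L + ((i : ℕ) - L) = (i : ℕ) := by omega
      rw [e] at this
      exact this
  · intro v hv hv0 d hw
    obtain ⟨hLN, R, hR0, hRd, hR⟩ := key v hv hv0
    have hY1 : YY N c L v = fun k => (∏ i ∈ Finset.range L,
        (((3 * (L + k) + c : ℕ) : ℝ) - ((3 * i + c : ℕ) : ℝ))) *
        R.eval ((3 * (L + k) + c : ℕ) : ℝ) := by
      ext k
      rw [YY_apply, hR, eval_mul, eval_prod]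
      simp only [eval_sub, eval_X, eval_C]
      ring
    have hY2 : ∀ k, L + k < N → YY N c L ((CC N c m).mulVec v) k =
        (-(((3 * (L + k) + c).descFactorial m : ℝ) * PP m L k)) *
          R.eval (((3 * (L + k) + c - m : ℕ) : ℝ)) := by
      intro k hk
      rw [YY_apply]
      have h1 := pol_CC (c := c) (m := m) v ⟨L + k, hk⟩
      simp only at h1
      rw [h1, hR, eval_mul, eval_prod]
      have e : ∏ i ∈ Finset.range L, eval (((3 * (L + k) + c - m : ℕ) : ℝ))
          (X - Polynomial.C ((3 * i + c : ℕ) : ℝ)) = PP m L k := by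
        unfold PP
        apply Finset.prod_congr rfl
        intro i _
        rw [eval_sub, eval_X, eval_C]
        have : ((3 * (L + k) + c - m : ℕ) : ℝ) = (3 * ((L : ℝ) + k) + c) - m := by
          rw [Nat.cast_sub (by omega)]
          push_cast; ring
        rw [this]
        push_cast
        ring
      rw [e]
      ring
    have hβ : ∀ k < N - L, 0 < ∏ i ∈ Finset.range L,
        (((3 * (L + k) + c : ℕ) : ℝ) - ((3 * i + c : ℕ) : ℝ)) := by
      intro k _
      apply Finset.prod_pos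
      intro i hi
      have hiL : i < L := Finset.mem_range.1 hi
      have : 3 * i + c < 3 * (L + k) + c := by omega
      have : ((3 * i + c : ℕ) : ℝ) < ((3 * (L + k) + c : ℕ) : ℝ) := by exact_mod_cast this
      linarith
    have hsg := PP_sign hm hc hL hN
    have hvd := vd (N - L) R hR0 hRd (fun k => ((3 * (L + k) + c : ℕ) : ℝ))
      (fun k => ((3 * (L + k) + c - m : ℕ) : ℝ))
      (fun l _ => by
        show ((3 * (L + l) + c : ℕ) : ℝ) < ((3 * (L + (l + 1)) + c : ℕ) : ℝ)
        exact_mod_cast (by omega : 3 * (L + l) + c < 3 * (L + (l + 1)) + c))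
      (fun l _ => by
        show ((3 * (L + l) + c - m : ℕ) : ℝ) < ((3 * (L + (l + 1)) + c - m : ℕ) : ℝ)
        exact_mod_cast (by omega : 3 * (L + l) + c - m < 3 * (L + (l + 1)) + c - m))
      (fun i hi j hj => by
        show ((3 * (L + i) + c - m : ℕ) : ℝ) < ((3 * (L + j) + c : ℕ) : ℝ)
        exact_mod_cast (by omega : 3 * (L + i) + c - m < 3 * (L + j) + c))
      (fun k => -(((3 * (L + k) + c).descFactorial m : ℝ) * PP m L k))
      (fun k => ∏ i ∈ Finset.range L,
        (((3 * (L + k) + c : ℕ) : ℝ) - ((3 * i + c : ℕ) : ℝ)))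
      (-(PP m L 0)) (neg_ne_zero.2 (PP_zero_ne hm)) hβ
      (fun k hk => by
        have h1 := hsg k (by omega)
        have h2 : (0 : ℝ) < ((3 * (L + k) + c).descFactorial m : ℝ) := by
          exact_mod_cast Nat.descFactorial_pos.2 (by omega)
        have h3 := mul_pos h2 h1
        have e : -PP m L 0 * (-1) ^ k * -(((3 * (L + k) + c).descFactorial m : ℝ) * PP m L k) =
          ((3 * (L + k) + c).descFactorial m : ℝ) * (PP m L 0 * ((-1) ^ k * PP m L k)) := by ring
        rw [e]; exact h3) d (by rw [hY1] at hw; exact hw)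
    -- transfer
    obtain ⟨f, σ, h1, h2, h3, h4⟩ := hvd
    refine ⟨f, σ, h1, h2, h3, fun l hl => ?_⟩
    rw [hY2 _ (by have := h3 l hl; omega)]
    exact h4 l hl

end Pool.Agent.H87.Oka
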