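import Pool.Agent.H87.Oka.Lin

open Polynomial Topology Filter

namespace Pool.Agent.H87.Oka

variable {N K : ℕ} {C : Matrix (Fin N) (Fin N) ℝ} {Y : (Fin N → ℝ) →ₗ[ℝ] (ℕ → ℝ)}
  {V : Submodule ℝ (Fin N → ℝ)}

/-- real part of `ζ v` -/
def rp (v : Fin N → ℂ) (ζ : ℂ) : Fin N → ℝ := fun i => (ζ * v i).re

theorem rp_mulVec (v : Fin N → ℂ) (w : Fin N → ℂ)
    (hv : (C.map (algebraMap ℝ ℂ)).mulVec v = w) (ζ : ℂ) :
    C.mulVec (rp v ζ) = rp w ζ := by
  ext i
  have h := congrFun hv i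
  simp only [Matrix.mulVec, dotProduct, Matrix.map_apply] at h
  simp only [Matrix.mulVec, dotProduct, rp]
  rw [← h, Finset.mul_sum, Complex.re_sum]
  apply Finset.sum_congr rfl
  intro j _
  have e : ζ * ((algebraMap ℝ ℂ) (C i j) * v j) = ((C i j : ℝ) : ℂ) * (ζ * v j) := by
    simp only [Complex.coe_algebraMap]; ring
  rw [e, Complex.re_ofReal_mul]

theorem rp_smul (v : Fin N → ℂ) (x ζ : ℂ) : rp (x • v) ζ = rp v (ζ * x) := by
  ext i
  simp only [rp, Pi.smul_apply, smul_eq_mul, mul_assoc]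

theorem rp_real_smul (v : Fin N → ℂ) (t : ℝ) (ζ : ℂ) : rp v ((t : ℂ) * ζ) = t • rp v ζ := by
  ext i
  simp only [rp, Pi.smul_apply, smul_eq_mul]
  rw [mul_assoc, Complex.re_ofReal_mul]

theorem rp_add (v : Fin N → ℂ) (ζ η : ℂ) : rp v (ζ + η) = rp v ζ + rp v η := by
  ext i
  simp only [rp, Pi.add_apply, add_mul, Complex.add_re]

/-- E3: eigenvalues are real. -/
theorem Osc.im_eq_zero (h : Osc N K C Y V) {v : Fin N → ℂ} {x : ℂ} (hx : x ≠ 0)
    (hv : (C.map (algebraMap ℝ ℂ)).mulVec v = x • v) (h0 : v ≠ 0) : x.im = 0 := by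
  by_contra him
  have hC : ∀ ζ, C.mulVec (rp v ζ) = rp v (ζ * x) := by
    intro ζ
    rw [rp_mulVec v _ hv, rp_smul]
  have hV : ∀ ζ, rp v ζ ∈ V := by
    intro ζ
    have := h.hC (rp v (ζ / x))
    rw [hC, div_mul_cancel₀ _ hx] at this
    exact this
  have hne : ∀ ζ, ζ ≠ 0 → rp v ζ ≠ 0 := by
    intro ζ hζ hz
    have h1 : rp v (ζ * x) = 0 := by
      rw [← hC, hz, Matrix.mulVec_zero]
    obtain ⟨i, hi⟩ : ∃ i, v i ≠ 0 := by
      by_contra hcon
      push Not at hcon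
      exact h0 (funext hcon)
    have e1 : (ζ * v i).re = 0 := congrFun hz i
    have e2 : (ζ * x * v i).re = 0 := congrFun h1 i
    have e3 : ζ * x * v i = x * (ζ * v i) := by ring
    rw [e3, Complex.mul_re, e1, mul_zero, zero_sub, neg_eq_zero, mul_eq_zero] at e2
    rcases e2 with e2 | e2
    · exact him e2
    · exact (mul_ne_zero hζ hi) (Complex.ext e1 e2)
  have hcont : ∀ k < K, Continuous fun ζ : ℂ => Y (rp v ζ) k := by
    intro k _
    have hY : Continuous fun r : Fin N → ℝ => Y r k := by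
      have := LinearMap.continuous_of_finiteDimensional ((LinearMap.proj k).comp Y)
      exact this
    apply hY.comp
    apply continuous_pi
    intro i
    simp only [rp]
    fun_prop
  -- special direction
  obtain ⟨ζ₁, hζ₁, hz1⟩ : ∃ ζ₁ : ℂ, ζ₁ ≠ 0 ∧ Y (rp v ζ₁) 0 = 0 := by
    set A := Y (rp v 1) 0 with hA
    set B := Y (rp v Complex.I) 0 with hB
    by_cases hA0 : A = 0
    · exact ⟨1, one_ne_zero, hA0⟩
    · refine ⟨(B : ℂ) * 1 + ((-A : ℝ) : ℂ) * Complex.I, ?_, ?_⟩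
      · intro hcon
        have := congrArg Complex.im hcon
        simp at this
        exact hA0 this
      · rw [rp_add, rp_real_smul, rp_real_smul, map_add, map_smul, map_smul]
        simp only [Pi.add_apply, Pi.smul_apply, smul_eq_mul, ← hA, ← hB]
        ring
  set ζ₀ : ℂ := ((‖ζ₁‖⁻¹ : ℝ) : ℂ) * ζ₁ with hζ₀
  have hn1 : ‖ζ₁‖ ≠ 0 := norm_ne_zero_iff.2 hζ₁
  have hζ₀n : ‖ζ₀‖ = 1 := by
    rw [hζ₀, norm_mul, Complex.norm_real, norm_inv, norm_norm, inv_mul_cancel₀ hn1]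
  have hζ₀0 : ζ₀ ≠ 0 := by
    intro hcon; rw [hcon, norm_zero] at hζ₀n; exact zero_ne_one hζ₀n
  have hz0 : Y (rp v ζ₀) 0 = 0 := by
    rw [hζ₀, rp_real_smul, map_smul, Pi.smul_apply, hz1, smul_zero]
  obtain ⟨c, hc1, hc2⟩ := special hz0 (h.hne _ (hV ζ₀) (hne ζ₀ hζ₀0))
  -- the sets
  set W : Set ℂ := Metric.sphere (0 : ℂ) 1 ∩ {ζ | Weak K c (Y (rp v ζ))} with hW
  set S : Set ℂ := {ζ | Strong K c (Y (rp v ζ))} with hS
  have hWc : IsCompact W := (isCompact_sphere _ _).inter_right (isClosed_weak K c _ hcont)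
  have hSo : IsOpen S := isOpen_strong K c _ hcont
  have hxn : ‖x‖ ≠ 0 := norm_ne_zero_iff.2 hx
  obtain ⟨θ₀, hθ₀⟩ : ∃ θ : ℝ, Complex.exp (2 * Real.pi * Complex.I * θ) = x / (‖x‖ : ℂ) := by
    refine ⟨x.arg / (2 * Real.pi), ?_⟩
    have h1 := Complex.norm_mul_exp_arg_mul_I x
    have h2 : (‖x‖ : ℂ) ≠ 0 := by exact_mod_cast hxn
    rw [eq_div_iff h2]
    conv_rhs => rw [← h1]
    rw [mul_comm]
    congr 2
    have : (Real.pi : ℂ) ≠ 0 := by exact_mod_cast Real.pi_ne_zero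
    push_cast
    field_simp
  have hstep : ∀ ζ ∈ W, ζ * Complex.exp (2 * Real.pi * Complex.I * (θ₀ : ℂ)) ∈ S := by
    intro ζ hζ
    have hζ0 : ζ ≠ 0 := by
      intro hcon
      have := hζ.1
      rw [hcon] at this
      simp at this
    have h1 := h.hVD _ (hV ζ) (hne ζ hζ0) c hζ.2
    rw [hC] at h1
    show Strong K c (Y (rp v _))
    rw [hθ₀]
    have e : ζ * (x / (‖x‖ : ℂ)) = ((‖x‖⁻¹ : ℝ) : ℂ) * (ζ * x) := by
      push_cast; ring
    rw [e, rp_real_smul, map_smul]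
    exact h1.smul (inv_ne_zero hxn)
  have hev : ∀ᶠ θ : ℝ in 𝓝 θ₀, ∀ ζ ∈ W, ζ * Complex.exp (2 * Real.pi * Complex.I * (θ : ℂ)) ∈ S := by
    apply IsCompact.eventually_forall_of_forall_eventually hWc
    intro ζ hζ
    have hc : Continuous fun q : ℝ × ℂ => q.2 * Complex.exp (2 * Real.pi * Complex.I * (q.1 : ℂ)) := by
      fun_prop
    exact hc.continuousAt.eventually (hSo.mem_nhds (hstep ζ hζ))
  obtain ⟨q, hq⟩ : ∃ q : ℚ, ∀ ζ ∈ W, ζ * Complex.exp (2 * Real.pi * Complex.I * ((q : ℝ) : ℂ)) ∈ S := by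
    have := Rat.denseRange_cast (𝕜 := ℝ)
    obtain ⟨U, hU, hUo, hU0⟩ := eventually_nhds_iff.1 hev
    obtain ⟨q, hq⟩ := this.exists_mem_open hUo ⟨θ₀, hU0⟩
    exact ⟨q, hU _ hq⟩
  set e := Complex.exp (2 * Real.pi * Complex.I * ((q : ℝ) : ℂ)) with he
  have hen : ‖e‖ = 1 := by
    rw [he]
    have : 2 * (Real.pi : ℂ) * Complex.I * ((q : ℝ) : ℂ) = ((2 * Real.pi * q : ℝ) : ℂ) * Complex.I := by
      push_cast; ring
    rw [this, Complex.norm_exp_ofReal_mul_I]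
  have hmem : ∀ j : ℕ, ζ₀ * e ^ j ∈ W := by
    intro j
    induction j with
    | zero =>
      rw [pow_zero, mul_one]
      exact ⟨by simpa using hζ₀n, hc1⟩
    | succ j ih =>
      refine ⟨?_, ?_⟩
      · simp [norm_mul, norm_pow, hen, hζ₀n]
      · have := hq _ ih
        rw [mul_assoc, ← pow_succ] at this
        exact Strong.weak this
  have hfin : ζ₀ * e ^ q.den = ζ₀ := by
    have : e ^ q.den = 1 := by
      rw [he, ← Complex.exp_nat_mul]
      have h1 : ((q.den : ℂ)) * (2 * (Real.pi : ℂ) * Complex.I * ((q : ℝ) : ℂ)) =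
          (q.num : ℂ) * (2 * Real.pi * Complex.I) := by
        have h2 : (q.den : ℂ) * ((q : ℝ) : ℂ) = (q.num : ℂ) := by
          have h3 : (q : ℚ) * (q.den : ℚ) = (q.num : ℚ) := Rat.mul_den_eq_num q
          have h4 : ((q : ℚ) : ℂ) * ((q.den : ℚ) : ℂ) = ((q.num : ℚ) : ℂ) := by
            exact_mod_cast congrArg (fun t : ℚ => (t : ℂ)) h3
          push_cast at h4 ⊢
          rw [mul_comm]; exact h4
        calc _ = ((q.den : ℂ) * ((q : ℝ) : ℂ)) * (2 * (Real.pi : ℂ) * Complex.I) := by ring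
          _ = _ := by rw [h2]
      rw [h1]
      exact Complex.exp_int_mul_two_pi_mul_I _
    rw [this, mul_one]
  have hd : q.den = (q.den - 1) + 1 := by
    have := q.den_pos
    omega
  have := hq _ (hmem (q.den - 1))
  rw [mul_assoc, ← pow_succ, ← hd, hfin] at this
  exact hc2 this

end Pool.Agent.H87.Oka
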