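import Pool.Agent.H87.Oka.Alt

open Polynomial

namespace Pool.Agent.H87.Oka

theorem neg_one_pow_sq (k : ℕ) : ((-1 : ℝ) ^ k) * (-1) ^ k = 1 := by
  rw [← mul_pow]; norm_num

/-- The combined induction statement. -/
theorem dual_aux (u : ℕ → ℝ) (n : ℕ) :
    (∀ k < n, u k = 0) ∨
    ∃ c w : ℕ, c + w + 1 = n ∧ ∃ f g : ℕ → ℕ, ∃ σ : ℝ, (σ = 1 ∨ σ = -1) ∧
      (∀ l < c, f l < f (l + 1)) ∧ (∀ l ≤ c, f l < n) ∧
      (∀ l ≤ c, 0 < σ * (-1) ^ (c + l) * u (f l)) ∧
      (∀ l < w, g l < g (l + 1)) ∧ (∀ l ≤ w, g l < n) ∧
      (∀ l ≤ w, 0 ≤ σ * (-1) ^ (w + l) * ((-1) ^ (n - 1 + g l) * u (g l))) := by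
  induction n with
  | zero => left; intro k hk; omega
  | succ n ih =>
    rcases ih with hz | ⟨c, w, hcw, f, g, σ, hσ, hf1, hf2, hf3, hg1, hg2, hg3⟩
    · by_cases hn : u n = 0
      · left
        intro k hk
        rcases Nat.lt_succ_iff_lt_or_eq.1 hk with h | h
        · exact hz k h
        · rw [h]; exact hn
      · right
        refine ⟨0, n, by omega, fun _ => n, fun l => l, if 0 < u n then 1 else -1, ?_, ?_, ?_, ?_,
          ?_, ?_, ?_⟩
        · split_ifs
          · left; rfl
          · right; rfl
        · intro l hl; omega
        · intro l _; show n < n + 1; omega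
        · intro l hl
          have : l = 0 := by omega
          subst this
          simp only [add_zero, pow_zero, mul_one]
          split_ifs with h
          · simpa using h
          · have : u n < 0 := lt_of_le_of_ne (not_lt.1 h) hn
            simpa using this
        · intro l _; show l < l + 1; omega
        · intro l hl; show l < n + 1; omega
        · intro l hl
          rcases Nat.lt_or_eq_of_le hl with h | h
          · show 0 ≤ _ * (_ * u l)
            rw [hz l h]; simp
          · subst h
            have h1 : ((-1 : ℝ) ^ (l + l)) = 1 := by rw [pow_add]; exact neg_one_pow_sq l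
            rw [Nat.add_sub_cancel, h1]
            split_ifs with h
            · simpa using h.le
            · simpa using not_lt.1 h
    · right
      have hσ2 : σ * σ = 1 := by rcases hσ with h | h <;> rw [h] <;> norm_num
      by_cases hs : 0 ≤ σ * u n
      · refine ⟨c, w + 1, by omega, f, fun l => if l ≤ w then g l else n, σ, hσ, hf1,
          fun l hl => by have := hf2 l hl; omega, hf3, ?_, ?_, ?_⟩
        · intro l hl
          simp only
          rw [if_pos (by omega : l ≤ w)]
          split_ifs with h
          · exact hg1 l (by omega)
          · exact hg2 l (by omega)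
        · intro l hl
          simp only
          split_ifs with h
          · have := hg2 l h; omega
          · omega
        · intro l hl
          simp only
          split_ifs with h
          · have h1 := hg3 l h
            have e : σ * (-1) ^ (w + 1 + l) * ((-1) ^ (n + 1 - 1 + g l) * u (g l)) =
                σ * (-1) ^ (w + l) * ((-1) ^ (n - 1 + g l) * u (g l)) := by
              have e1 : w + 1 + l = (w + l) + 1 := by ring
              have e2 : n + 1 - 1 + g l = (n - 1 + g l) + 1 := by omega
              rw [e1, e2, pow_succ, pow_succ]; ring
            rw [e]; exact h1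
          · have hl' : l = w + 1 := by omega
            subst hl'
            rw [Nat.add_sub_cancel, pow_add, neg_one_pow_sq, pow_add, neg_one_pow_sq]
            simpa using hs
      · have hs' : σ * u n < 0 := not_le.1 hs
        refine ⟨c + 1, w, by omega, fun l => if l ≤ c then f l else n,
          fun l => if l < w then g l else n, -σ, ?_, ?_, ?_, ?_, ?_, ?_, ?_⟩
        · rcases hσ with h | h <;> rw [h]
          · right; rfl
          · left; norm_num
        · intro l hl
          simp only
          rw [if_pos (by omega : l ≤ c)]
          split_ifs with h
          · exact hf1 l (by omega)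
          · exact hf2 l (by omega)
        · intro l hl
          simp only
          split_ifs with h
          · have := hf2 l h; omega
          · omega
        · intro l hl
          simp only
          split_ifs with h
          · have h1 := hf3 l h
            have e : -σ * (-1) ^ (c + 1 + l) * u (f l) = σ * (-1) ^ (c + l) * u (f l) := by
              have e1 : c + 1 + l = (c + l) + 1 := by ring
              rw [e1, pow_succ]; ring
            rw [e]; exact h1
          · have hl' : l = c + 1 := by omega
            subst hl'
            rw [pow_add, neg_one_pow_sq]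
            linarith
        · intro l hl
          simp only
          rw [if_pos hl]
          split_ifs with h
          · exact hg1 l (by omega)
          · exact hg2 l (by omega)
        · intro l hl
          simp only
          split_ifs with h
          · have := hg2 l (by omega); omega
          · omega
        · intro l hl
          simp only
          split_ifs with h
          · have h1 := hg3 l (by omega)
            have e : -σ * (-1) ^ (w + l) * ((-1) ^ (n + 1 - 1 + g l) * u (g l)) =
                σ * (-1) ^ (w + l) * ((-1) ^ (n - 1 + g l) * u (g l)) := by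
              have e2 : n + 1 - 1 + g l = (n - 1 + g l) + 1 := by omega
              rw [e2, pow_succ]; ring
            rw [e]; exact h1
          · have hl' : l = w := by omega
            subst hl'
            rw [Nat.add_sub_cancel, pow_add, neg_one_pow_sq, pow_add, neg_one_pow_sq]
            linarith

/-- Duality between strong sign changes and weak sign changes of the alternated sequence. -/
theorem dual (n : ℕ) (u : ℕ → ℝ) (hu : ∃ k < n, u k ≠ 0) :
    ∃ c w : ℕ, c + w + 1 = n ∧ Strong n c u ∧ Weak n w (fun k => (-1) ^ k * u k) := by
  rcases dual_aux u n with hz | ⟨c, w, hcw, f, g, σ, hσ, hf1, hf2, hf3, hg1, hg2, hg3⟩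
  · obtain ⟨k, hk, hne⟩ := hu
    exact absurd (hz k hk) hne
  · have hσ0 : σ ≠ 0 := by rcases hσ with h | h <;> rw [h] <;> norm_num
    refine ⟨c, w, hcw, ⟨f, σ * (-1) ^ c, mul_ne_zero hσ0 (pow_ne_zero _ (by norm_num)), hf1, hf2,
      fun l hl => ?_⟩, ⟨g, σ * (-1) ^ w * (-1) ^ (n - 1), ?_, hg1, hg2, fun l hl => ?_⟩⟩
    · have := hf3 l hl
      rw [pow_add] at this
      convert this using 1
      ring
    · exact mul_ne_zero (mul_ne_zero hσ0 (pow_ne_zero _ (by norm_num)))
        (pow_ne_zero _ (by norm_num))
    · have := hg3 l hl
      rw [pow_add, pow_add] at this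
      convert this using 1
      ring

end Pool.Agent.H87.Oka
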