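import Pool.Agent.H87.Oka.Top

open Polynomial Topology Filter

namespace Pool.Agent.H87.Oka

/-- The hypotheses on a real matrix `C` that are used: `C` strictly increases sign changes. -/
structure Osc (N K : ℕ) (C : Matrix (Fin N) (Fin N) ℝ) (Y : (Fin N → ℝ) →ₗ[ℝ] (ℕ → ℝ))
    (V : Submodule ℝ (Fin N → ℝ)) : Prop where
  hC : ∀ v, C.mulVec v ∈ V
  hne : ∀ v ∈ V, v ≠ 0 → ∃ k < K, Y v k ≠ 0
  hVD : ∀ v ∈ V, v ≠ 0 → ∀ c, Weak K c (Y v) → Strong K c (Y (C.mulVec v))

variable {N K : ℕ} {C : Matrix (Fin N) (Fin N) ℝ} {Y : (Fin N → ℝ) →ₗ[ℝ] (ℕ → ℝ)}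
  {V : Submodule ℝ (Fin N → ℝ)}

theorem Osc.mem_of_eig (h : Osc N K C Y V) {r : Fin N → ℝ} {x : ℝ} (hx : x ≠ 0)
    (hr : C.mulVec r = x • r) : r ∈ V := by
  have : r = x⁻¹ • (C.mulVec r) := by rw [hr, smul_smul, inv_mul_cancel₀ hx, one_smul]
  rw [this]
  exact V.smul_mem _ (h.hC r)

theorem Osc.strong_eig (h : Osc N K C Y V) {r : Fin N → ℝ} {x : ℝ} (hx : x ≠ 0)
    (hr : C.mulVec r = x • r) (h0 : r ≠ 0) {c : ℕ} (hw : Weak K c (Y r)) : Strong K c (Y r) := by
  have h1 := h.hVD r (h.mem_of_eig hx hr) h0 c hw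
  rw [hr, map_smul] at h1
  exact Strong.of_smul hx h1

/-- E1 -/
theorem Osc.eig_first (h : Osc N K C Y V) {r : Fin N → ℝ} {x : ℝ} (hx : x ≠ 0)
    (hr : C.mulVec r = x • r) (h0 : r ≠ 0) : Y r 0 ≠ 0 := by
  intro hz
  obtain ⟨c, hc1, hc2⟩ := special hz (h.hne r (h.mem_of_eig hx hr) h0)
  exact hc2 (h.strong_eig hx hr h0 hc1)

/-- E2 -/
theorem Osc.no_jordan (h : Osc N K C Y V) {y w : Fin N → ℝ} {x : ℝ} (hx : x ≠ 0)
    (hy : C.mulVec y = x • y) (h0 : y ≠ 0) (hw : C.mulVec w = x • w + y) : False := by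
  have hy0 := h.eig_first hx hy h0
  let u : ℝ → (Fin N → ℝ) := fun s => w + s • y
  have hCu : ∀ s, C.mulVec (u s) = x • u (s + x⁻¹) := by
    intro s
    simp only [u, Matrix.mulVec_add, Matrix.mulVec_smul, hy, hw]
    ext i
    simp only [Pi.add_apply, Pi.smul_apply, smul_eq_mul]
    field_simp
    ring
  have hu0 : ∀ s, u s ≠ 0 := by
    intro s hs
    have hw' : w = (-s) • y := by
      rw [neg_smul]; exact eq_neg_of_add_eq_zero_left hs
    have h1 : C.mulVec w = x • w := by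
      rw [hw', Matrix.mulVec_smul, hy, smul_comm]
    rw [hw] at h1
    exact h0 (by simpa using h1)
  have huV : ∀ s, u s ∈ V := by
    intro s
    have h1 := hCu (s - x⁻¹)
    rw [sub_add_cancel] at h1
    have : u s = x⁻¹ • C.mulVec (u (s - x⁻¹)) := by
      rw [h1, smul_smul, inv_mul_cancel₀ hx, one_smul]
    rw [this]
    exact V.smul_mem _ (h.hC _)
  have hstep : ∀ c s, Weak K c (Y (u s)) → Strong K c (Y (u (s + x⁻¹))) := by
    intro c s hs
    have h1 := h.hVD _ (huV s) (hu0 s) c hs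
    rw [hCu, map_smul] at h1
    exact Strong.of_smul hx h1
  have hYu : ∀ s k, Y (u s) k = Y w k + s * Y y k := by
    intro s k
    simp [u, map_add, map_smul]
  set s₀ : ℝ := -(Y w 0) / Y y 0 with hs₀
  have hz : Y (u s₀) 0 = 0 := by
    rw [hYu, hs₀]
    field_simp
    ring
  obtain ⟨c, hc1, hc2⟩ := special hz (h.hne _ (huV s₀) (hu0 s₀))
  -- forward orbit
  have hfwd : ∀ n : ℕ, Strong K c (Y (u (s₀ + (n + 1) * x⁻¹))) := by
    intro n
    induction n with
    | zero =>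
      have := hstep c s₀ hc1
      simpa using this
    | succ n ih =>
      have := hstep c _ ih.weak
      have e : s₀ + (((n + 1 : ℕ) : ℝ) + 1) * x⁻¹ = s₀ + ((n : ℝ) + 1) * x⁻¹ + x⁻¹ := by
        push_cast; ring
      rw [e]; exact this
  -- the scaled family
  let G : ℝ → ℕ → ℝ := fun t k => t * Y w k + (t * s₀ + 1) * Y y k
  have hGc : ∀ k < K, Continuous fun t => G t k := by
    intro k _
    simp only [G]
    fun_prop
  have hG : ∀ s t : ℝ, t ≠ 0 → s = s₀ + t⁻¹ → (fun k => t * Y (u s) k) = G t := by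
    intro s t ht hs
    ext k
    rw [hYu, hs]
    simp only [G]
    field_simp
  have hG0 : G 0 = fun k => Y y k := by
    ext k
    simp [G]
  -- limit
  have hlim : Tendsto (fun n : ℕ => x / ((n : ℝ) + 1)) atTop (𝓝 0) := by
    have := (tendsto_one_div_add_atTop_nhds_zero_nat (𝕜 := ℝ)).const_mul x
    simpa [div_eq_mul_inv] using this
  have hWy : Weak K c (Y y) := by
    have hcl := isClosed_weak K c G hGc
    have hmem : ∀ n : ℕ, x / ((n : ℝ) + 1) ∈ {t | Weak K c (G t)} := by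
      intro n
      have hn : ((n : ℝ) + 1) ≠ 0 := by positivity
      have ht : x / ((n : ℝ) + 1) ≠ 0 := div_ne_zero hx hn
      have := (hfwd n).weak.smul ht
      rw [hG _ _ ht (by rw [inv_div]; field_simp)] at this
      exact this
    have := hcl.mem_of_tendsto hlim (Eventually.of_forall hmem)
    have h2 : Weak K c (G 0) := this
    rw [hG0] at h2
    exact h2
  have hSy : Strong K c (Y y) := h.strong_eig hx hy h0 hWy
  -- backward
  have hop := isOpen_strong K c G hGc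
  have h0mem : (0 : ℝ) ∈ {t | Strong K c (G t)} := by
    show Strong K c (G 0)
    rw [hG0]; exact hSy
  have hlim' : Tendsto (fun n : ℕ => -(x / ((n : ℝ) + 1))) atTop (𝓝 0) := by
    have := hlim.neg
    simpa using this
  obtain ⟨n, hn⟩ := (hlim'.eventually (hop.mem_nhds h0mem)).exists
  have hn1 : ((n : ℝ) + 1) ≠ 0 := by positivity
  have ht : -(x / ((n : ℝ) + 1)) ≠ 0 := neg_ne_zero.2 (div_ne_zero hx hn1)
  have hback : Strong K c (Y (u (s₀ + -((n : ℝ) + 1) * x⁻¹))) := by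
    have h1 : Strong K c (G (-(x / ((n : ℝ) + 1)))) := hn
    rw [← hG (s₀ + -((n : ℝ) + 1) * x⁻¹) _ ht (by
      rw [inv_neg, inv_div]; field_simp)] at h1
    exact Strong.of_smul ht h1
  have hall : ∀ j : ℕ, Strong K c (Y (u (s₀ + -((n : ℝ) + 1) * x⁻¹ + j * x⁻¹))) := by
    intro j
    induction j with
    | zero => simpa using hback
    | succ j ih =>
      have := hstep c _ ih.weak
      have e : s₀ + -((n : ℝ) + 1) * x⁻¹ + ((j + 1 : ℕ) : ℝ) * x⁻¹ =
          s₀ + -((n : ℝ) + 1) * x⁻¹ + (j : ℝ) * x⁻¹ + x⁻¹ := by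
        push_cast; ring
      rw [e]; exact this
  have := hall (n + 1)
  have e : s₀ + -((n : ℝ) + 1) * x⁻¹ + ((n + 1 : ℕ) : ℝ) * x⁻¹ = s₀ := by
    push_cast; ring
  rw [e] at this
  exact hc2 this

end Pool.Agent.H87.Oka
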