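import Pool.Agent.H87.Oka.Cx

open Polynomial Topology Filter

namespace Pool.Agent.H87.Oka

variable {N K : ℕ} {C : Matrix (Fin N) (Fin N) ℝ} {Y : (Fin N → ℝ) →ₗ[ℝ] (ℕ → ℝ)}
  {V : Submodule ℝ (Fin N → ℝ)}

/-- the complexified first coordinate -/
noncomputable def psi (Y : (Fin N → ℝ) →ₗ[ℝ] (ℕ → ℝ)) : (Fin N → ℂ) →ₗ[ℂ] ℂ where
  toFun v := ∑ i, v i * ((Y (Pi.single i 1) 0 : ℝ) : ℂ)
  map_add' v w := by simp [add_mul, Finset.sum_add_distrib]
  map_smul' a v := by simp [Finset.mul_sum, mul_assoc]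

theorem psi_re (Y : (Fin N → ℝ) →ₗ[ℝ] (ℕ → ℝ)) (v : Fin N → ℂ) (ζ : ℂ) :
    Y (rp v ζ) 0 = (ζ * psi Y v).re := by
  have h1 : rp v ζ = ∑ i, (rp v ζ i) • (Pi.single i (1 : ℝ) : Fin N → ℝ) := by
    ext j
    simp [Finset.sum_apply, Pi.single_apply]
  rw [h1, map_sum, Finset.sum_apply]
  simp only [map_smul, Pi.smul_apply, smul_eq_mul, psi, LinearMap.coe_mk, AddHom.coe_mk]
  rw [Finset.mul_sum, Complex.re_sum]
  apply Finset.sum_congr rfl
  intro i _
  rw [← mul_assoc, mul_comm (ζ * v i), Complex.re_ofReal_mul]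
  simp only [rp]
  ring

theorem Osc.simple (h : Osc N K C Y V) {x : ℂ} (hx : x ≠ 0)
    (hr : (C.map (algebraMap ℝ ℂ)).charpoly.IsRoot x) :
    x.im = 0 ∧ (C.map (algebraMap ℝ ℂ)).charpoly.rootMultiplicity x ≤ 1 := by
  classical
  set M := C.map (algebraMap ℝ ℂ) with hM
  obtain ⟨v, hv0, hv⟩ : ∃ v : Fin N → ℂ, v ≠ 0 ∧ M.mulVec v = x • v := by
    have h1 : (Matrix.scalar (Fin N) x - M).det = 0 := by
      rw [← Matrix.eval_charpoly]; exact hr
    obtain ⟨v, hv0, hv⟩ := Matrix.exists_mulVec_eq_zero_iff.2 h1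
    refine ⟨v, hv0, ?_⟩
    rw [Matrix.sub_mulVec, sub_eq_zero] at hv
    rw [← hv]
    simp [Matrix.scalar_apply]
  have him := h.im_eq_zero hx hv hv0
  refine ⟨him, ?_⟩
  by_contra hcon
  push Not at hcon
  obtain ⟨t, rfl⟩ : ∃ t : ℝ, x = (t : ℂ) := ⟨x.re, Complex.ext (by simp) (by simp [him])⟩
  have ht : t ≠ 0 := by
    intro h0; rw [h0] at hx; exact hx Complex.ofReal_zero
  set φ : Module.End ℂ (Fin N → ℂ) := Matrix.toLin' M with hφ
  have hfr : 2 ≤ Module.finrank ℂ (φ.maxGenEigenspace (t : ℂ)) := by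
    rw [LinearMap.finrank_maxGenEigenspace_eq, hφ, Matrix.charpoly_toLin']
    exact hcon
  have hker : LinearMap.ker ((psi Y).domRestrict (φ.maxGenEigenspace (t : ℂ))) ≠ ⊥ := by
    apply LinearMap.ker_ne_bot_of_finrank_lt
    rw [Module.finrank_self]
    omega
  obtain ⟨w, hw, hw0⟩ := Submodule.exists_mem_ne_zero_of_ne_bot hker
  obtain ⟨w, hwm⟩ := w
  have hwψ : psi Y w = 0 := by
    simpa [LinearMap.mem_ker] using hw
  have hwne : w ≠ 0 := by
    intro h0; apply hw0; ext1; exact h0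
  have hex := (Module.End.mem_maxGenEigenspace φ (t : ℂ) w).1 hwm
  set k := Nat.find hex with hk
  have hk1 : ((φ - (t : ℂ) • (1 : Module.End ℂ (Fin N → ℂ))) ^ k) w = 0 := Nat.find_spec hex
  have hk0 : k ≠ 0 := by
    intro h0
    rw [h0, pow_zero] at hk1
    exact hwne hk1
  -- real eigenvectors from complex ones
  have hφapp : ∀ u, φ u = M.mulVec u := fun u => Matrix.toLin'_apply M u
  by_cases hk2 : k = 1
  · -- an eigenvector with vanishing first coordinate
    rw [hk2, pow_one, LinearMap.sub_apply, LinearMap.smul_apply, Module.End.one_apply,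
      sub_eq_zero, hφapp] at hk1
    have hreal : ∀ ζ : ℂ, C.mulVec (rp w ζ) = t • rp w ζ := by
      intro ζ
      rw [rp_mulVec w _ hk1, rp_smul, mul_comm, rp_real_smul]
    have hz : ∀ ζ : ℂ, Y (rp w ζ) 0 = 0 := by
      intro ζ
      rw [psi_re, hwψ]; simp
    have hz0 : ∀ ζ : ℂ, rp w ζ = 0 := by
      intro ζ
      by_contra hne
      exact h.eig_first ht (hreal ζ) hne (hz ζ)
    apply hwne
    ext i
    have h1 := congrFun (hz0 1) i
    have h2 := congrFun (hz0 (-Complex.I)) i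
    simp only [rp, one_mul, Pi.zero_apply] at h1
    simp [rp] at h2
    exact Complex.ext (by simpa using h1) (by simpa using h2)
  · obtain ⟨j, hj⟩ : ∃ j, k = j + 2 := ⟨k - 2, by omega⟩
    set ψ' := φ - (t : ℂ) • (1 : Module.End ℂ (Fin N → ℂ)) with hψ'
    set w2 := (ψ' ^ j) w with hw2
    set w1 := ψ' w2 with hw1
    have hw1' : w1 = (ψ' ^ (j + 1)) w := by
      rw [hw1, hw2, pow_succ']; rfl
    have hw1ne : w1 ≠ 0 := by
      rw [hw1']
      intro h0
      have := Nat.find_min' hex h0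
      omega
    have hψw1 : ψ' w1 = 0 := by
      rw [hw1']
      have : (ψ' ^ (j + 2)) w = 0 := by rw [← hj]; exact hk1
      rw [← this, show j + 2 = (j + 1) + 1 by ring, pow_succ' ψ' (j + 1)]; rfl
    have e1 : M.mulVec w1 = (t : ℂ) • w1 := by
      rw [hψ', LinearMap.sub_apply, LinearMap.smul_apply, Module.End.one_apply,
        sub_eq_zero, hφapp] at hψw1
      exact hψw1
    have e2 : M.mulVec w2 = (t : ℂ) • w2 + w1 := by
      have : w1 = M.mulVec w2 - (t : ℂ) • w2 := by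
        rw [hw1, hψ', LinearMap.sub_apply, LinearMap.smul_apply, Module.End.one_apply, hφapp]
      rw [this]; abel
    obtain ⟨ζ, hζ⟩ : ∃ ζ : ℂ, rp w1 ζ ≠ 0 := by
      by_contra hcon2
      push Not at hcon2
      apply hw1ne
      ext i
      have h1 := congrFun (hcon2 1) i
      have h2 := congrFun (hcon2 (-Complex.I)) i
      simp only [rp, one_mul, Pi.zero_apply] at h1
      simp [rp] at h2
      exact Complex.ext (by simpa using h1) (by simpa using h2)
    apply h.no_jordan (y := rp w1 ζ) (w := rp w2 ζ) ht ?_ hζ ?_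
    · rw [rp_mulVec w1 _ e1, rp_smul, mul_comm, rp_real_smul]
    · rw [rp_mulVec w2 _ e2]
      ext i
      simp only [rp, Pi.add_apply, Pi.smul_apply, smul_eq_mul, mul_add, Complex.add_re]
      have : ζ * ((t : ℂ) * w2 i) = (t : ℂ) * (ζ * w2 i) := by ring
      rw [this, Complex.re_ofReal_mul]

end Pool.Agent.H87.Oka
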