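import Pool.Agent.H87.Oka.VD

open Polynomial

namespace Pool.Agent.H87.Oka

theorem Strong.smul {K c : ℕ} {y : ℕ → ℝ} (h : Strong K c y) {t : ℝ} (ht : t ≠ 0) :
    Strong K c (fun k => t * y k) := by
  obtain ⟨f, σ, h1, h2, h3, h4⟩ := h
  refine ⟨f, σ / t, div_ne_zero h1 ht, h2, h3, fun l hl => ?_⟩
  have := h4 l hl
  have e : σ / t * (-1) ^ l * (t * y (f l)) = σ * (-1) ^ l * y (f l) := by field_simp
  rw [e]; exact this

theorem Weak.smul {K c : ℕ} {y : ℕ → ℝ} (h : Weak K c y) {t : ℝ} (ht : t ≠ 0) :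
    Weak K c (fun k => t * y k) := by
  obtain ⟨f, σ, h1, h2, h3, h4⟩ := h
  refine ⟨f, σ / t, div_ne_zero h1 ht, h2, h3, fun l hl => ?_⟩
  have := h4 l hl
  have e : σ / t * (-1) ^ l * (t * y (f l)) = σ * (-1) ^ l * y (f l) := by field_simp
  rw [e]; exact this

theorem Strong.of_smul {K c : ℕ} {y : ℕ → ℝ} {t : ℝ} (ht : t ≠ 0)
    (h : Strong K c (fun k => t * y k)) : Strong K c y := by
  have := h.smul (inv_ne_zero ht)
  convert this using 2 with k
  field_simp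

/-- the sign attached to a Boolean -/
noncomputable def sg (b : Bool) : ℝ := if b then 1 else -1

theorem strong_iff {K c : ℕ} {y : ℕ → ℝ} : Strong K c y ↔
    ∃ a : (Fin (c + 1) → Fin K) × Bool, (∀ l : ℕ, ∀ h : l < c,
      a.1 ⟨l, by omega⟩ < a.1 ⟨l + 1, by omega⟩) ∧
      ∀ l : Fin (c + 1), 0 < sg a.2 * (-1) ^ (l : ℕ) * y (a.1 l) := by
  constructor
  · rintro ⟨f, σ, h1, h2, h3, h4⟩
    refine ⟨(fun l => ⟨f l, h3 l (by omega)⟩, decide (0 < σ)), fun l h => h2 l h, fun l => ?_⟩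
    have h5 := h4 l (by omega)
    have h6 : 0 < sg (decide (0 < σ)) * σ := by
      unfold sg
      by_cases h : 0 < σ
      · simp [h]
      · have : σ < 0 := lt_of_le_of_ne (not_lt.1 h) h1
        simp [h, this]
    have h7 := mul_pos h6 h5
    have e : sg (decide (0 < σ)) * σ * (σ * (-1) ^ (l : ℕ) * y (f l)) =
        (sg (decide (0 < σ)) * (-1) ^ (l : ℕ) * y (f l)) * (σ ^ 2) := by ring
    rw [e] at h7
    exact (mul_pos_iff_of_pos_right (by positivity)).1 h7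
  · rintro ⟨⟨f, b⟩, h1, h2⟩
    refine ⟨fun l => if h : l < c + 1 then (f ⟨l, h⟩ : ℕ) else 0, sg b, ?_, fun l hl => ?_,
      fun l hl => ?_, fun l hl => ?_⟩
    · unfold sg; split_ifs <;> norm_num
    · simp only
      rw [dif_pos (by omega : l < c + 1), dif_pos (by omega : l + 1 < c + 1)]
      exact h1 l hl
    · simp only
      rw [dif_pos (by omega : l < c + 1)]
      exact Fin.is_lt _
    · simp only
      rw [dif_pos (by omega : l < c + 1)]
      exact h2 ⟨l, by omega⟩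

theorem weak_iff {K c : ℕ} {y : ℕ → ℝ} : Weak K c y ↔
    ∃ a : (Fin (c + 1) → Fin K) × Bool, (∀ l : ℕ, ∀ h : l < c,
      a.1 ⟨l, by omega⟩ < a.1 ⟨l + 1, by omega⟩) ∧
      ∀ l : Fin (c + 1), 0 ≤ sg a.2 * (-1) ^ (l : ℕ) * y (a.1 l) := by
  constructor
  · rintro ⟨f, σ, h1, h2, h3, h4⟩
    refine ⟨(fun l => ⟨f l, h3 l (by omega)⟩, decide (0 < σ)), fun l h => h2 l h, fun l => ?_⟩
    have h5 := h4 l (by omega)
    have h6 : 0 < sg (decide (0 < σ)) * σ := by
      unfold sg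
      by_cases h : 0 < σ
      · simp [h]
      · have : σ < 0 := lt_of_le_of_ne (not_lt.1 h) h1
        simp [h, this]
    have h7 := mul_nonneg h6.le h5
    have e : sg (decide (0 < σ)) * σ * (σ * (-1) ^ (l : ℕ) * y (f l)) =
        (sg (decide (0 < σ)) * (-1) ^ (l : ℕ) * y (f l)) * (σ ^ 2) := by ring
    rw [e] at h7
    exact nonneg_of_mul_nonneg_left h7 (by positivity)
  · rintro ⟨⟨f, b⟩, h1, h2⟩
    refine ⟨fun l => if h : l < c + 1 then (f ⟨l, h⟩ : ℕ) else 0, sg b, ?_, fun l hl => ?_,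
      fun l hl => ?_, fun l hl => ?_⟩
    · unfold sg; split_ifs <;> norm_num
    · simp only
      rw [dif_pos (by omega : l < c + 1), dif_pos (by omega : l + 1 < c + 1)]
      exact h1 l hl
    · simp only
      rw [dif_pos (by omega : l < c + 1)]
      exact Fin.is_lt _
    · simp only
      rw [dif_pos (by omega : l < c + 1)]
      exact h2 ⟨l, by omega⟩

theorem isOpen_strong (K c : ℕ) {X : Type*} [TopologicalSpace X] (F : X → ℕ → ℝ)
    (hF : ∀ k < K, Continuous fun x => F x k) : IsOpen {x | Strong K c (F x)} := by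
  have : {x | Strong K c (F x)} = ⋃ a : (Fin (c + 1) → Fin K) × Bool, {x | (∀ l : ℕ, ∀ h : l < c,
      a.1 ⟨l, by omega⟩ < a.1 ⟨l + 1, by omega⟩) ∧
      ∀ l : Fin (c + 1), 0 < sg a.2 * (-1) ^ (l : ℕ) * F x (a.1 l)} := by
    ext x
    simp only [Set.mem_ofPred_eq, Set.mem_iUnion]
    exact strong_iff
  rw [this]
  apply isOpen_iUnion
  intro a
  by_cases h : (∀ l : ℕ, ∀ h : l < c, a.1 ⟨l, by omega⟩ < a.1 ⟨l + 1, by omega⟩)
  · have : {x | (∀ l : ℕ, ∀ h : l < c, a.1 ⟨l, by omega⟩ < a.1 ⟨l + 1, by omega⟩) ∧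
        ∀ l : Fin (c + 1), 0 < sg a.2 * (-1) ^ (l : ℕ) * F x (a.1 l)} =
        ⋂ l : Fin (c + 1), {x | 0 < sg a.2 * (-1) ^ (l : ℕ) * F x (a.1 l)} := by
      ext x
      simp only [Set.mem_ofPred_eq, Set.mem_iInter]
      exact ⟨fun hx => hx.2, fun hx => ⟨h, hx⟩⟩
    rw [this]
    apply isOpen_iInter_of_finite
    intro l
    exact isOpen_lt continuous_const (continuous_const.mul (hF _ (a.1 l).2))
  · have : {x | (∀ l : ℕ, ∀ h : l < c, a.1 ⟨l, by omega⟩ < a.1 ⟨l + 1, by omega⟩) ∧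
        ∀ l : Fin (c + 1), 0 < sg a.2 * (-1) ^ (l : ℕ) * F x (a.1 l)} = ∅ := by
      ext x
      simp only [Set.mem_ofPred_eq, Set.mem_empty_iff_false, iff_false]
      exact fun hx => h hx.1
    rw [this]
    exact isOpen_empty

theorem isClosed_weak (K c : ℕ) {X : Type*} [TopologicalSpace X] (F : X → ℕ → ℝ)
    (hF : ∀ k < K, Continuous fun x => F x k) : IsClosed {x | Weak K c (F x)} := by
  have : {x | Weak K c (F x)} = ⋃ a : (Fin (c + 1) → Fin K) × Bool, {x | (∀ l : ℕ, ∀ h : l < c,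
      a.1 ⟨l, by omega⟩ < a.1 ⟨l + 1, by omega⟩) ∧
      ∀ l : Fin (c + 1), 0 ≤ sg a.2 * (-1) ^ (l : ℕ) * F x (a.1 l)} := by
    ext x
    simp only [Set.mem_ofPred_eq, Set.mem_iUnion]
    exact weak_iff
  rw [this]
  apply isClosed_iUnion_of_finite
  intro a
  by_cases h : (∀ l : ℕ, ∀ h : l < c, a.1 ⟨l, by omega⟩ < a.1 ⟨l + 1, by omega⟩)
  · have : {x | (∀ l : ℕ, ∀ h : l < c, a.1 ⟨l, by omega⟩ < a.1 ⟨l + 1, by omega⟩) ∧
        ∀ l : Fin (c + 1), 0 ≤ sg a.2 * (-1) ^ (l : ℕ) * F x (a.1 l)} =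
        ⋂ l : Fin (c + 1), {x | 0 ≤ sg a.2 * (-1) ^ (l : ℕ) * F x (a.1 l)} := by
      ext x
      simp only [Set.mem_ofPred_eq, Set.mem_iInter]
      exact ⟨fun hx => hx.2, fun hx => ⟨h, hx⟩⟩
    rw [this]
    apply isClosed_iInter
    intro l
    exact isClosed_le continuous_const (continuous_const.mul (hF _ (a.1 l).2))
  · have : {x | (∀ l : ℕ, ∀ h : l < c, a.1 ⟨l, by omega⟩ < a.1 ⟨l + 1, by omega⟩) ∧
        ∀ l : Fin (c + 1), 0 ≤ sg a.2 * (-1) ^ (l : ℕ) * F x (a.1 l)} = ∅ := by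
      ext x
      simp only [Set.mem_ofPred_eq, Set.mem_empty_iff_false, iff_false]
      exact fun hx => h hx.1
    rw [this]
    exact isClosed_empty

/-- A sequence whose first entry is zero has more weak than strong sign changes. -/
theorem special {K : ℕ} {y : ℕ → ℝ} (h0 : y 0 = 0) (hne : ∃ k < K, y k ≠ 0) :
    ∃ c, Weak K c y ∧ ¬ Strong K c y := by
  classical
  obtain ⟨k, hk, hyk⟩ := hne
  have hex : ∃ c, ¬ Strong K c y := ⟨K, fun h => lt_irrefl _ h.lt⟩
  set c := Nat.find hex with hc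
  have hnc : ¬ Strong K c y := Nat.find_spec hex
  have hc0 : c ≠ 0 := by
    intro h
    rw [h] at hnc
    exact hnc (strong_zero hk hyk)
  obtain ⟨d, hd⟩ : ∃ d, c = d + 1 := ⟨c - 1, by omega⟩
  have hsd : Strong K d y := by
    by_contra h
    have := Nat.find_min' hex h
    omega
  refine ⟨c, ?_, hnc⟩
  obtain ⟨f, σ, h1, h2, h3, h4⟩ := hsd
  have hf0 : 0 < f 0 := by
    rcases Nat.eq_zero_or_pos (f 0) with h | h
    · have := h4 0 (Nat.zero_le _)
      rw [h, h0, mul_zero] at this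
      exact absurd this (lt_irrefl _)
    · exact h
  rw [hd]
  refine ⟨fun l => if l = 0 then 0 else f (l - 1), -σ, neg_ne_zero.2 h1, fun l hl => ?_,
    fun l hl => ?_, fun l hl => ?_⟩
  · simp only
    rw [if_neg (by omega : ¬ (l + 1 = 0)), Nat.add_sub_cancel]
    split_ifs with h
    · rw [h]; exact hf0
    · have := h2 (l - 1) (by omega)
      have e : l - 1 + 1 = l := by omega
      rw [e] at this; exact this
  · simp only
    split_ifs with h
    · omega
    · exact h3 _ (by omega)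
  · simp only
    split_ifs with h
    · rw [h0, mul_zero]
    · obtain ⟨j, rfl⟩ : ∃ j, l = j + 1 := ⟨l - 1, by omega⟩
      rw [Nat.add_sub_cancel]
      have := h4 j (by omega)
      have e : -σ * (-1) ^ (j + 1) * y (f j) = σ * (-1) ^ j * y (f j) := by
        rw [pow_succ]; ring
      rw [e]; exact this.le

end Pool.Agent.H87.Oka
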