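import Pool.Agent.H87.Oka.Dual

open Polynomial

namespace Pool.Agent.H87.Oka

/-- Variation property: the values (with positive weights) of a nonzero real polynomial of degree
`< K` at the `K` right-hand points have at most as many weak sign changes as the values, with
weights of alternating sign, at the `K` left-hand points have strong sign changes. -/
theorem vd (K : ℕ) (R : ℝ[X]) (hR : R ≠ 0) (hd : R.degree < K) (b p : ℕ → ℝ)
    (hb : ∀ l, l + 1 < K → b l < b (l + 1)) (hp : ∀ l, l + 1 < K → p l < p (l + 1))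
    (hpb : ∀ i < K, ∀ j < K, p i < b j) (α β : ℕ → ℝ) (s : ℝ) (hs : s ≠ 0)
    (hβ : ∀ k < K, 0 < β k) (hα : ∀ k < K, 0 < s * (-1) ^ k * α k) (c : ℕ)
    (hw : Weak K c (fun k => β k * R.eval (b k))) :
    Strong K c (fun k => α k * R.eval (p k)) := by
  classical
  have hbm : ∀ i j, i < j → j < K → b i < b j := by
    intro i j hij hj
    exact lt_of_step (c := K - 1) (fun l hl => hb l (by omega)) i j hij (by omega)
  have hpm : ∀ i j, i < j → j < K → p i < p j := by
    intro i j hij hj
    exact lt_of_step (c := K - 1) (fun l hl => hp l (by omega)) i j hij (by omega)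
  have hαne : ∀ k < K, α k ≠ 0 := by
    intro k hk h0
    have := hα k hk
    rw [h0, mul_zero] at this
    exact lt_irrefl _ this
  have hu : ∃ k < K, α k * R.eval (p k) ≠ 0 := by
    by_contra hcon
    push Not at hcon
    apply hR
    have hinj : Set.InjOn p (Finset.range K : Finset ℕ) := by
      intro i hi j hj hij
      simp only [Finset.coe_range, Set.mem_Iio] at hi hj
      rcases lt_trichotomy i j with h1 | h1 | h1
      · exact absurd hij (ne_of_lt (hpm i j h1 (by omega)))
      · exact h1
      · exact absurd hij.symm (ne_of_lt (hpm j i h1 (by omega)))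
    apply Polynomial.eq_zero_of_degree_lt_of_eval_finset_eq_zero ((Finset.range K).image p)
    · rw [Finset.card_image_of_injOn hinj, Finset.card_range]
      exact hd
    · intro x hx
      obtain ⟨i, hi, rfl⟩ := Finset.mem_image.1 hx
      rw [Finset.mem_range] at hi
      exact (mul_eq_zero.1 (hcon i hi)).resolve_left (hαne i hi)
  obtain ⟨c', w, hcw, hstr, hweak⟩ := dual K _ hu
  by_cases hcc : c ≤ c'
  · exact hstr.mono hcc
  exfalso
  obtain ⟨f, σ, hσ, hf1, hf2, hf3⟩ := hw
  have hcK : c < K := by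
    have := inc_of_step hf1 c le_rfl
    have := hf2 c le_rfl
    omega
  obtain ⟨A, hA⟩ : ∃ A, A + c = K := ⟨K - c, by omega⟩
  obtain ⟨g, τ, hτ, hg1, hg2, hg3⟩ := hweak.mono (by omega : A ≤ w)
  -- sign at the left points
  have hleft : ∀ l ≤ A, 0 ≤ τ * s * (-1) ^ l * R.eval (p (g l)) := by
    intro l hl
    have h1 := hg3 l hl
    have h2 := hα (g l) (hg2 l hl)
    have hsq : 0 < ((-1 : ℝ) ^ (g l) * α (g l)) ^ 2 := by
      have : (-1 : ℝ) ^ (g l) * α (g l) ≠ 0 :=
        mul_ne_zero (pow_ne_zero _ (by norm_num)) (hαne _ (hg2 l hl))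
      positivity
    have h3 : 0 ≤ (τ * (-1) ^ l * ((-1) ^ g l * (α (g l) * R.eval (p (g l))))) *
        (s * (-1) ^ g l * α (g l)) := mul_nonneg h1 h2.le
    have e : (τ * (-1) ^ l * ((-1) ^ g l * (α (g l) * R.eval (p (g l))))) *
        (s * (-1) ^ g l * α (g l)) =
        (τ * s * (-1) ^ l * R.eval (p (g l))) * ((-1) ^ (g l) * α (g l)) ^ 2 := by ring
    rw [e] at h3
    exact nonneg_of_mul_nonneg_left h3 hsq
  have hright : ∀ l ≤ c, 0 ≤ σ * (-1) ^ l * R.eval (b (f l)) := by
    intro l hl
    have h1 := hf3 l hl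
    have h2 := hβ (f l) (hf2 l hl)
    have e : σ * (-1) ^ l * (β (f l) * R.eval (b (f l))) =
        (σ * (-1) ^ l * R.eval (b (f l))) * β (f l) := by ring
    simp only [e] at h1
    exact nonneg_of_mul_nonneg_left h1 h2
  obtain ⟨δ, hδ1, hδ⟩ : ∃ δ : ℕ, δ ≤ 1 ∧ 0 < (σ * (-1) ^ A) * (τ * s * (-1) ^ δ) := by
    have hne : (σ * (-1) ^ A) * (τ * s) ≠ 0 :=
      mul_ne_zero (mul_ne_zero hσ (pow_ne_zero _ (by norm_num))) (mul_ne_zero hτ hs)
    rcases lt_or_gt_of_ne hne with h | h
    · refine ⟨1, le_rfl, ?_⟩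
      rw [pow_one]
      linarith
    · refine ⟨0, by omega, ?_⟩
      rw [pow_zero, mul_one]
      exact h
  apply alt_false K R hR hd (fun l => if l < A then p (g (l + δ)) else b (f (l - A)))
    ?_ (σ * (-1) ^ A) (mul_ne_zero hσ (pow_ne_zero _ (by norm_num))) ?_
  · intro l hl
    by_cases h1 : l + 1 < A
    · rw [if_pos (by omega), if_pos h1]
      apply hpm
      · have := hg1 (l + δ) (by omega)
        have e : l + 1 + δ = l + δ + 1 := by ring
        rw [e]; exact this
      · exact hg2 _ (by omega)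
    · by_cases h2 : l < A
      · rw [if_pos h2, if_neg h1]
        apply hpb
        · exact hg2 _ (by omega)
        · exact hf2 _ (by omega)
      · rw [if_neg h2, if_neg h1]
        apply hbm
        · have := hf1 (l - A) (by omega)
          have e : l + 1 - A = l - A + 1 := by omega
          rw [e]; exact this
        · exact hf2 _ (by omega)
  · intro l hl
    by_cases h1 : l < A
    · rw [if_pos h1]
      have h2 := hleft (l + δ) (by omega)
      have hsq : 0 < (τ * s) ^ 2 := by
        have := mul_ne_zero hτ hs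
        positivity
      have h3 := mul_nonneg hδ.le h2
      have e : (σ * (-1) ^ A) * (τ * s * (-1) ^ δ) *
          (τ * s * (-1) ^ (l + δ) * R.eval (p (g (l + δ)))) =
          (σ * (-1) ^ A * (-1) ^ l * R.eval (p (g (l + δ)))) * (τ * s) ^ 2 := by
        have e1 : ((-1 : ℝ) ^ (l + δ)) = (-1) ^ l * (-1) ^ δ := pow_add _ _ _
        rw [e1]
        have e2 := neg_one_pow_sq δ
        calc _ = (σ * (-1) ^ A * (-1) ^ l * R.eval (p (g (l + δ)))) * (τ * s) ^ 2 *
              ((-1) ^ δ * (-1) ^ δ) := by ring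
          _ = _ := by rw [e2, mul_one]
      rw [e] at h3
      exact nonneg_of_mul_nonneg_left h3 hsq
    · rw [if_neg h1]
      have h2 := hright (l - A) (by omega)
      have e : σ * (-1) ^ A * (-1) ^ l * R.eval (b (f (l - A))) =
          σ * (-1) ^ (l - A) * R.eval (b (f (l - A))) := by
        have e1 : ((-1 : ℝ) ^ A) * (-1) ^ l = (-1) ^ (l - A) := by
          have e3 : l = A + (l - A) := by omega
          conv_lhs => rw [e3, pow_add, ← mul_assoc, neg_one_pow_sq, one_mul]
        rw [mul_assoc σ, e1]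
      rw [e]; exact h2

end Pool.Agent.H87.Oka
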